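import Pool.Agent.W810.SYN.Stm

/-!
# Project SYN (helper810), part MEAS
-/

set_option autoImplicit false

namespace Pool.Agent.W389.SYN.MEAS

open MeasureTheory AddCircle Pool.Agent.Results.MP_535799_an.NonSidon Pool.Agent.W810.SYN

theorem sd_ge (x : Circ) : 2 / Real.pi * ‖x‖ ≤ sd x := by
  have hx : x ∈ ((↑) : ℝ → Circ) '' Set.Ioc (-Real.pi) (-Real.pi + 2 * Real.pi) := by
    rw [AddCircle.coe_image_Ioc_eq]
    trivial
  obtain ⟨t, ht, rfl⟩ := hx
  have hpi := Real.pi_pos
  have ht1 : |t| ≤ Real.pi := by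
    rw [abs_le]
    constructor
    · exact ht.1.le
    · have := ht.2
      linarith
  have h1 : ‖((t : ℝ) : Circ)‖ = |t| := by
    rw [AddCircle.norm_coe_eq_abs_iff (2 * Real.pi) (by positivity)]
    rw [abs_of_pos (by positivity : (0:ℝ) < 2 * Real.pi)]
    linarith
  have h2 : sd ((t : ℝ) : Circ) = 2 * |Real.sin (t / 2)| := by
    unfold sd
    have e : (fourier 1 ((t : ℝ) : Circ) : ℂ) = Complex.exp (Complex.I * t) := by
      rw [fourier_coe_apply]
      congr 1
      have : (Real.pi : ℂ) ≠ 0 := by exact_mod_cast hpi.ne'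
      push_cast
      field_simp
    rw [e, ← norm_neg, neg_sub, Complex.norm_exp_I_mul_ofReal_sub_one, norm_mul, Real.norm_eq_abs,
      Real.norm_eq_abs, abs_of_pos (by norm_num : (0:ℝ) < 2)]
  rw [h1, h2]
  have h3 : 2 / Real.pi * |t / 2| ≤ |Real.sin (t / 2)| := by
    apply Real.mul_abs_le_abs_sin
    rw [abs_div, abs_of_pos (by norm_num : (0:ℝ) < 2)]
    linarith
  rw [abs_div, abs_of_pos (by norm_num : (0:ℝ) < 2)] at h3
  calc 2 / Real.pi * |t| = 2 * (2 / Real.pi * (|t| / 2)) := by ring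
    _ ≤ 2 * |Real.sin (t / 2)| := by linarith

theorem main : S_MEAS := by
  intro δ hδ
  have hpi := Real.pi_pos
  have h1 : {x : Circ | sd x < δ} ⊆ Metric.closedBall 0 (Real.pi / 2 * δ) := by
    intro x hx
    rw [mem_closedBall_zero_iff]
    have h2 := sd_ge x
    have h3 : sd x < δ := hx
    have h4 : ‖x‖ = Real.pi / 2 * (2 / Real.pi * ‖x‖) := by
      field_simp
    rw [h4]
    exact mul_le_mul_of_nonneg_left (h2.trans h3.le) (by positivity)
  have h2 : mu.real {x : Circ | sd x < δ} ≤ mu.real (Metric.closedBall (0 : Circ)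
      (Real.pi / 2 * δ)) := measureReal_mono h1
  refine h2.trans ?_
  have h3 : (volume (Metric.closedBall (0 : Circ) (Real.pi / 2 * δ))).toReal =
      2 * Real.pi * mu.real (Metric.closedBall (0 : Circ) (Real.pi / 2 * δ)) := by
    rw [volume_eq_smul_haarAddCircle, Measure.smul_apply, smul_eq_mul, ENNReal.toReal_mul,
      ENNReal.toReal_ofReal (by positivity)]
    rfl
  have h4 : (volume (Metric.closedBall (0 : Circ) (Real.pi / 2 * δ))).toReal ≤ Real.pi * δ := by
    rw [AddCircle.volume_closedBall]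
    apply ENNReal.toReal_le_of_le_ofReal (by positivity)
    apply ENNReal.ofReal_le_ofReal
    refine (min_le_right _ _).trans (le_of_eq (by ring))
  rw [h3] at h4
  have h5 : 2 * mu.real (Metric.closedBall (0 : Circ) (Real.pi / 2 * δ)) ≤ δ := by
    by_contra hc
    push Not at hc
    have := mul_lt_mul_of_pos_left hc hpi
    linarith
  have h6 : 0 ≤ mu.real (Metric.closedBall (0 : Circ) (Real.pi / 2 * δ)) := measureReal_nonneg
  linarith

end Pool.Agent.W389.SYN.MEAS
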